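import Pool.Agent.K9h52.EG.Stm2

/-!
# The exponential growth rate of the number of patterns does not change at finitely many primes
-/

set_option autoImplicit false

namespace Pool.Agent.K9h88.FCH

open Finset Filter Topology
open Pool.Agent.K9h52.EG

/-- the function `f` changed at the prime `p` -/
noncomputable def chg (p : ℕ) (f : ℕ → ℤˣ) (m : ℕ) : ℤˣ := f m * (-1) ^ (m.factorization p)

lemma neg_one_sq' (k : ℕ) : ((-1 : ℤˣ) ^ k) * (-1) ^ k = 1 := by
  rw [← mul_pow]; simp

lemma chg_chg (p : ℕ) (f : ℕ → ℤˣ) : chg p (chg p f) = f := by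
  funext m
  unfold chg
  rw [mul_assoc, neg_one_sq', mul_one]

lemma chg_mul (p : ℕ) {f : ℕ → ℤˣ} (hf : Multiplicative f) : Multiplicative (chg p f) := by
  intro q m hq hm
  unfold chg
  rw [hf q m hq hm, Nat.factorization_mul hq.ne_zero (by omega), Finsupp.add_apply, pow_add,
    mul_mul_mul_comm]

lemma fac_eq {p k a b : ℕ} (hp : p.Prime) (ha : a ≠ 0) (hb : b ≠ 0) (h : a ≡ b [MOD p ^ k])
    (hn : ¬ p ^ k ∣ a) : a.factorization p = b.factorization p := by
  have hn' : ¬ p ^ k ∣ b := fun h1 => hn ((h.dvd_iff dvd_rfl).2 h1)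
  have h1 : a.factorization p < k := by
    by_contra hc
    exact hn ((hp.pow_dvd_iff_le_factorization ha).2 (not_lt.1 hc))
  have h2 : b.factorization p < k := by
    by_contra hc
    exact hn' ((hp.pow_dvd_iff_le_factorization hb).2 (not_lt.1 hc))
  apply le_antisymm
  · rw [← hp.pow_dvd_iff_le_factorization hb, ← h.dvd_iff (pow_dvd_pow p h1.le),
      hp.pow_dvd_iff_le_factorization ha]
  · rw [← hp.pow_dvd_iff_le_factorization ha, h.dvd_iff (pow_dvd_pow p h2.le),
      hp.pow_dvd_iff_le_factorization hb]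

open Classical in
/-- the patterns of `(-1) ^ v_p` -/
noncomputable def pats (p n k : ℕ) : Finset (Fin n → ℤˣ) :=
  (Finset.univ : Finset (Fin (p ^ k) × ℤˣ)).image fun q j =>
    if p ^ k ∣ (q.1 : ℕ) + j + 1 then q.2 else (-1) ^ (((q.1 : ℕ) + j + 1).factorization p)

lemma pats_card (p n k : ℕ) : (pats p n k).card ≤ 2 * p ^ k := by
  refine card_image_le.trans ?_
  rw [card_univ, Fintype.card_prod, Fintype.card_fin]
  have : Fintype.card ℤˣ = 2 := rfl
  rw [this, mul_comm]

lemma mem_pats (p n k : ℕ) (hp : p.Prime) (hk : n < p ^ k) (m : ℕ) :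
    (fun j : Fin n => ((-1 : ℤˣ)) ^ ((m + j + 1).factorization p)) ∈ pats p n k := by
  classical
  have hpk : 0 < p ^ k := pow_pos hp.pos k
  obtain ⟨s, hs⟩ : ∃ s : ℤˣ, ∀ j : Fin n, p ^ k ∣ m + j + 1 →
      (-1 : ℤˣ) ^ ((m + j + 1).factorization p) = s := by
    by_cases h : ∃ j : Fin n, p ^ k ∣ m + j + 1
    · obtain ⟨j0, h0⟩ := h
      refine ⟨(-1) ^ ((m + j0 + 1).factorization p), fun j hj => ?_⟩
      have : j = j0 := by
        apply Fin.ext
        have h1 : (m + j + 1) ≡ (m + j0 + 1) [MOD p ^ k] :=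
          ((Nat.modEq_zero_iff_dvd).2 hj).trans ((Nat.modEq_zero_iff_dvd).2 h0).symm
        have h2 : (j : ℕ) ≡ j0 [MOD p ^ k] :=
          Nat.ModEq.add_left_cancel' m (Nat.ModEq.add_right_cancel' 1 h1)
        exact Nat.ModEq.eq_of_lt_of_lt h2 (j.2.trans hk) (j0.2.trans hk)
      rw [this]
    · exact ⟨1, fun j hj => absurd ⟨j, hj⟩ h⟩
  unfold pats
  rw [mem_image]
  refine ⟨(⟨m % p ^ k, Nat.mod_lt _ hpk⟩, s), mem_univ _, ?_⟩
  funext j
  have hmod : (m % p ^ k + j + 1) ≡ (m + j + 1) [MOD p ^ k] :=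
    ((Nat.mod_modEq m (p ^ k)).add_right _).add_right _
  by_cases h : p ^ k ∣ m + j + 1
  · have h' : p ^ k ∣ m % p ^ k + j + 1 := (hmod.dvd_iff dvd_rfl).2 h
    simp only
    rw [if_pos h', hs j h]
  · have h' : ¬ p ^ k ∣ m % p ^ k + j + 1 := fun h1 => h ((hmod.dvd_iff dvd_rfl).1 h1)
    simp only
    rw [if_neg h']
    congr 1
    exact fac_eq hp (Nat.succ_ne_zero _) (Nat.succ_ne_zero _) hmod h'

lemma PL_le {L : Set ℕ → Prop} (hm : ∀ A B : Set ℕ, A ⊆ B → L A → L B)
    (hu : ∀ A B : Set ℕ, L (A ∪ B) → L A ∨ L B) (he : ¬ L ∅) (f : ℕ → ℤˣ) (p n k : ℕ)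
    (hp : p.Prime) (hk : n < p ^ k) :
    PL L (chg p f) n ≤ 2 * p ^ k * PL L f n := by
  classical
  have key : ∀ e : {e : Fin n → ℤˣ // OccursL L (chg p f) e},
      ∃ a, a ∈ pats p n k ∧ OccursL L f (fun j => e.1 j * a j) := by
    rintro ⟨e, he'⟩
    by_contra hcon
    push Not at hcon
    have hS : ∀ S : Finset (Fin n → ℤˣ), S ⊆ pats p n k →
        ¬ L (⋃ a ∈ S, {m : ℕ | 1 ≤ m ∧ (∀ j : Fin n, chg p f (m + j + 1) = e j) ∧
          ∀ j : Fin n, (-1 : ℤˣ) ^ ((m + j + 1).factorization p) = a j}) := by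
      intro S
      induction S using Finset.induction_on with
      | empty => intro _; simpa using he
      | insert a S ha ih =>
        intro hS hL
        rw [Finset.set_biUnion_insert] at hL
        rcases hu _ _ hL with h | h
        · refine hcon a (hS (mem_insert_self _ _)) (hm _ _ ?_ h)
          rintro m ⟨h1, h2, h3⟩
          refine ⟨h1, fun j => ?_⟩
          show f (m + j + 1) = e j * a j
          rw [← h2 j, ← h3 j]
          unfold chg
          rw [mul_assoc, neg_one_sq', mul_one]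
        · exact ih (fun x hx => hS (mem_insert_of_mem hx)) h
    refine hS _ subset_rfl (hm _ _ ?_ he')
    rintro m ⟨h1, h2⟩
    simp only [Set.mem_iUnion]
    exact ⟨_, mem_pats p n k hp hk m, h1, h2, fun j => rfl⟩
  choose a ha hocc using key
  have hinj : Function.Injective (fun e : {e : Fin n → ℤˣ // OccursL L (chg p f) e} =>
      ((⟨a e, ha e⟩, ⟨_, hocc e⟩) :
        {a // a ∈ pats p n k} × {e : Fin n → ℤˣ // OccursL L f e})) := by
    intro e e' h
    rw [Prod.mk.injEq] at h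
    have h1 : a e = a e' := congrArg Subtype.val h.1
    have h2 : (fun j => e.1 j * a e j) = (fun j => e'.1 j * a e' j) := congrArg Subtype.val h.2
    apply Subtype.ext
    funext j
    have h3 := congrFun h2 j
    simp only [h1] at h3
    exact mul_right_cancel h3
  unfold PL
  refine (Nat.card_le_card_of_injective _ hinj).trans ?_
  rw [Nat.card_prod]
  refine Nat.mul_le_mul_right _ ?_
  rw [Nat.card_eq_fintype_card, Fintype.card_coe]
  exact pats_card p n k

lemma logb_nat_nonneg (n : ℕ) : 0 ≤ Real.logb 2 (n : ℝ) := by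
  rcases Nat.eq_zero_or_pos n with h | h
  · rw [h]; simp
  · exact Real.logb_nonneg (by norm_num) (by exact_mod_cast h)

lemma small (p : ℕ) (hp : p.Prime) :
    Tendsto (fun n : ℕ => Real.logb 2 (2 * p * n) / n) atTop (𝓝 0) := by
  have hp0 : (0 : ℝ) < p := by exact_mod_cast hp.pos
  have h1 : Tendsto (fun n : ℕ => Real.logb 2 (2 * p) / (n : ℝ)) atTop (𝓝 0) :=
    tendsto_const_div_atTop_nhds_zero_nat _
  have h2 : Tendsto (fun n : ℕ => Real.log (n : ℝ) / (n : ℝ)) atTop (𝓝 0) :=
    (Real.isLittleO_log_id_atTop.tendsto_div_nhds_zero).comp tendsto_natCast_atTop_atTop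
  have h3 := h1.add (h2.div_const (Real.log 2))
  rw [zero_div, add_zero] at h3
  refine h3.congr' ?_
  filter_upwards [eventually_ge_atTop 1] with n hn
  have hn0 : (0 : ℝ) < n := by exact_mod_cast hn
  rw [Real.logb_mul (by positivity) hn0.ne', add_div]
  congr 1
  rw [Real.logb, div_right_comm]

lemma h_le {L : Set ℕ → Prop} (hm : ∀ A B : Set ℕ, A ⊆ B → L A → L B)
    (hu : ∀ A B : Set ℕ, L (A ∪ B) → L A ∨ L B) (he : ¬ L ∅) (f : ℕ → ℤˣ) (p : ℕ) (hp : p.Prime)
    (h h' : ℝ) (h1 : Tendsto (fun n : ℕ => Real.logb 2 (PL L f n) / n) atTop (𝓝 h))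
    (h2 : Tendsto (fun n : ℕ => Real.logb 2 (PL L (chg p f) n) / n) atTop (𝓝 h')) : h' ≤ h := by
  have h4 := h1.add (small p hp)
  rw [add_zero] at h4
  refine le_of_tendsto_of_tendsto h2 h4 ?_
  filter_upwards [eventually_ge_atTop 1] with n hn
  have hn0 : (0 : ℝ) < n := by exact_mod_cast hn
  have hp0 : (0 : ℝ) < p := by exact_mod_cast hp.pos
  have hp1 : (1 : ℝ) ≤ p := by exact_mod_cast hp.one_le
  have hn1 : (1 : ℝ) ≤ n := by exact_mod_cast hn
  rw [← add_div]
  refine div_le_div_of_nonneg_right ?_ hn0.le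
  have hk := PL_le hm hu he f p n (Nat.log p n + 1) hp (Nat.lt_pow_succ_log_self hp.one_lt n)
  have hk2 : p ^ (Nat.log p n + 1) ≤ p * n := by
    rw [pow_succ, mul_comm]
    exact Nat.mul_le_mul_left _ (Nat.pow_log_le_self p (by omega))
  have hk3 : PL L (chg p f) n ≤ 2 * p * n * PL L f n := by
    refine hk.trans (Nat.mul_le_mul_right _ ?_)
    rw [mul_assoc]
    exact Nat.mul_le_mul_left _ hk2
  have h21 : (1 : ℝ) ≤ 2 * p * n := by nlinarith
  have h20 : 0 ≤ Real.logb 2 (2 * p * n) := Real.logb_nonneg (by norm_num) h21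
  rcases Nat.eq_zero_or_pos (PL L (chg p f) n) with h0 | h0
  · rw [h0]
    simp only [Nat.cast_zero, Real.logb_zero]
    exact add_nonneg (logb_nat_nonneg _) h20
  · have hf0 : 0 < PL L f n := by
      rcases Nat.eq_zero_or_pos (PL L f n) with h5 | h5
      · rw [h5, mul_zero] at hk3; omega
      · exact h5
    have h5 : (0 : ℝ) < PL L f n := by exact_mod_cast hf0
    rw [add_comm, ← Real.logb_mul (by positivity) h5.ne']
    refine Real.logb_le_logb_of_le (by norm_num) (by exact_mod_cast h0) ?_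
    exact_mod_cast hk3

lemma mult_one {f : ℕ → ℤˣ} (hf : Multiplicative f) : f 1 = 1 := by
  have h := hf 2 1 Nat.prime_two le_rfl
  rw [mul_one] at h
  exact (mul_eq_left.1 h.symm)

lemma mult_eq {f g : ℕ → ℤˣ} (hf : Multiplicative f) (hg : Multiplicative g)
    (h : ∀ p : ℕ, p.Prime → f p = g p) : ∀ m : ℕ, 1 ≤ m → f m = g m := by
  intro m
  induction m using Nat.strong_induction_on with
  | _ m ih =>
    intro hm
    rcases Nat.lt_or_ge 1 m with h1 | h1
    · have hp := Nat.minFac_prime (n := m) (by omega)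
      obtain ⟨c, hc⟩ := Nat.minFac_dvd m
      have hc1 : 1 ≤ c := by
        rcases Nat.eq_zero_or_pos c with h0 | h0
        · rw [h0, mul_zero] at hc; omega
        · exact h0
      have hcm : c < m := by
        have := hp.two_le
        nlinarith
      rw [hc, hf _ _ hp hc1, hg _ _ hp hc1, h _ hp, ih c hcm hc1]
    · have : m = 1 := by omega
      rw [this, mult_one hf, mult_one hg]

lemma PL_congr {L : Set ℕ → Prop} {f g : ℕ → ℤˣ} (h : ∀ m : ℕ, 1 ≤ m → f m = g m) (n : ℕ) :
    PL L f n = PL L g n := by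
  have h1 : ∀ e : Fin n → ℤˣ, OccursL L f e ↔ OccursL L g e := by
    intro e
    unfold OccursL
    have : {m : ℕ | 1 ≤ m ∧ ∀ j : Fin n, f (m + j + 1) = e j} =
        {m : ℕ | 1 ≤ m ∧ ∀ j : Fin n, g (m + j + 1) = e j} := by
      ext m
      constructor
      · rintro ⟨h2, h3⟩
        exact ⟨h2, fun j => by rw [← h3 j, h _ (by omega)]⟩
      · rintro ⟨h2, h3⟩
        exact ⟨h2, fun j => by rw [← h3 j, h _ (by omega)]⟩
    rw [this]
  unfold PL
  exact Nat.card_congr (Equiv.subtypeEquivRight h1)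

/-- The growth rate is the same for two completely multiplicative functions that differ at finitely
many primes. -/
theorem inv {L : Set ℕ → Prop} (hm : ∀ A B : Set ℕ, A ⊆ B → L A → L B)
    (hu : ∀ A B : Set ℕ, L (A ∪ B) → L A ∨ L B) (he : ¬ L ∅)
    (hlim : ∀ f : ℕ → ℤˣ, Multiplicative f →
      ∃ h : ℝ, Tendsto (fun n : ℕ => Real.logb 2 (PL L f n) / n) atTop (𝓝 h))
    (f g : ℕ → ℤˣ) (hf : Multiplicative f) (hg : Multiplicative g)
    (hfin : {p : ℕ | p.Prime ∧ g p ≠ f p}.Finite) (h : ℝ)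
    (hh : Tendsto (fun n : ℕ => Real.logb 2 (PL L f n) / n) atTop (𝓝 h)) :
    Tendsto (fun n : ℕ => Real.logb 2 (PL L g n) / n) atTop (𝓝 h) := by
  classical
  have hS : ∀ S : Finset ℕ, (∀ p ∈ S, p.Prime) → ∃ f' : ℕ → ℤˣ, Multiplicative f' ∧
      (∀ q : ℕ, q.Prime → f' q = if q ∈ S then - f q else f q) ∧
      Tendsto (fun n : ℕ => Real.logb 2 (PL L f' n) / n) atTop (𝓝 h) := by
    intro S
    induction S using Finset.induction_on with
    | empty => exact fun _ => ⟨f, hf, fun q _ => by simp, hh⟩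
    | insert p S hp ih =>
      intro hpr
      obtain ⟨f', h1, h2, h3⟩ := ih fun q hq => hpr q (mem_insert_of_mem hq)
      have hpp := hpr p (mem_insert_self _ _)
      refine ⟨chg p f', chg_mul p h1, fun q hq => ?_, ?_⟩
      · unfold chg
        rw [h2 q hq, hq.factorization]
        by_cases hqp : q = p
        · subst hqp
          rw [if_neg hp, if_pos (mem_insert_self _ _), Finsupp.single_eq_same]
          simp
        · rw [Finsupp.single_eq_of_ne' (by exact hqp), pow_zero, mul_one]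
          by_cases hqS : q ∈ S
          · rw [if_pos hqS, if_pos (mem_insert_of_mem hqS)]
          · rw [if_neg hqS, if_neg]
            rw [mem_insert]
            tauto
      · obtain ⟨h', h4⟩ := hlim _ (chg_mul p h1)
        have h5 : h' ≤ h := h_le hm hu he f' p hpp h h' h3 h4
        have h6 : h ≤ h' := h_le hm hu he (chg p f') p hpp h' h h4 (by rw [chg_chg]; exact h3)
        rw [le_antisymm h6 h5]
        exact h4
  obtain ⟨f', h1, h2, h3⟩ := hS hfin.toFinset fun p hp => by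
    rw [Set.Finite.mem_toFinset] at hp
    exact hp.1
  have h4 : ∀ m : ℕ, 1 ≤ m → g m = f' m := mult_eq hg h1 fun p hp => by
    rw [h2 p hp]
    split_ifs with h5
    · rw [Set.Finite.mem_toFinset] at h5
      exact Int.units_ne_iff_eq_neg.1 h5.2
    · rw [Set.Finite.mem_toFinset] at h5
      by_contra h6
      exact h5 ⟨hp, h6⟩
  refine h3.congr fun n => ?_
  rw [PL_congr h4 n]

end Pool.Agent.K9h88.FCH
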