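import Pool.Agent.K9h52.EG.Top2
import Pool.Agent.K9h88.FCH.Inv

set_option autoImplicit false

namespace Pool.Agent.K9h88.FCH

open Filter Topology
open Pool.Agent.K9h52.EG

theorem top3 : Multiplicative Pool.Agent.K9h52.EG.Top.lam ∧
    ∀ L : Set ℕ → Prop, L = Set.Nonempty ∨ L = PosUpperDensity → ∀ f : ℕ → ℤˣ, Multiplicative f → ∃ h : ℝ,
      Tendsto (fun n : ℕ => Real.logb 2 (PL L f n) / n) atTop (𝓝 h) ∧
      Tendsto (fun n : ℕ => (cubeDimL L f n : ℝ) / n) atTop (𝓝 h) ∧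
      (∀ n : ℕ, 1 ≤ n → h ≤ (cubeDimL L f n : ℝ) / n) ∧
      (∀ n : ℕ, 1 ≤ n → (∃ e : Fin n → ℤˣ, ¬ OccursL L f e) → h ≤ 1 - 1 / n) ∧
      ∀ g : ℕ → ℤˣ, Multiplicative g → {p : ℕ | p.Prime ∧ g p ≠ f p}.Finite →
        Tendsto (fun n : ℕ => Real.logb 2 (PL L g n) / n) atTop (𝓝 h) ∧
        ((∀ (n : ℕ) (e : Fin n → ℤˣ), OccursL L g e) ↔ ∀ (n : ℕ) (e : Fin n → ℤˣ), OccursL L f e) := by
  refine ⟨Top2.top2.1, ?_⟩
  intro L hL f hf
  have hlarge : (∀ A B : Set ℕ, A ⊆ B → L A → L B) ∧ (∀ A B : Set ℕ, L (A ∪ B) → L A ∨ L B) ∧ ¬ L ∅ := by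
    rcases hL with rfl | rfl
    · exact ⟨fun A B h1 h2 => h2.mono h1, fun A B h => Set.union_nonempty.1 h,
        Set.not_nonempty_empty⟩
    · exact ⟨ud.mono, ud.union, ud.empty⟩
  obtain ⟨hm, hu, he⟩ := hlarge
  have hlim : ∀ f : ℕ → ℤˣ, Multiplicative f →
      ∃ h : ℝ, Tendsto (fun n : ℕ => Real.logb 2 (PL L f n) / n) atTop (𝓝 h) := fun f hf => by
    obtain ⟨h, h1, -⟩ := Top2.top2.2 L hL f hf
    exact ⟨h, h1⟩
  obtain ⟨h, h1, h2, h3, h4⟩ := Top2.top2.2 L hL f hf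
  have hinv : ∀ g : ℕ → ℤˣ, Multiplicative g → {p : ℕ | p.Prime ∧ g p ≠ f p}.Finite →
      Tendsto (fun n : ℕ => Real.logb 2 (PL L g n) / n) atTop (𝓝 h) := fun g hg hfin =>
    inv hm hu he hlim f g hf hg hfin h h1
  -- all patterns occur iff the limit is one
  have hone : ∀ f₀ : ℕ → ℤˣ, Multiplicative f₀ →
      Tendsto (fun n : ℕ => Real.logb 2 (PL L f₀ n) / n) atTop (𝓝 h) →
      ((∀ (n : ℕ) (e : Fin n → ℤˣ), OccursL L f₀ e) ↔ h = 1) := by
    intro f₀ hf₀ ht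
    constructor
    · intro hall
      have h5 : ∀ n : ℕ, PL L f₀ n = 2 ^ n := by
        intro n
        unfold PL
        rw [Nat.card_congr (Equiv.subtypeUnivEquiv (hall n)), Nat.card_eq_fintype_card,
          Fintype.card_fun, Fintype.card_fin]
        rfl
      refine tendsto_nhds_unique ht ?_
      refine tendsto_const_nhds.congr' ?_
      filter_upwards [eventually_ge_atTop 1] with n hn
      have hn0 : (n : ℝ) ≠ 0 := by
        have : (0 : ℝ) < n := by exact_mod_cast hn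
        exact this.ne'
      rw [h5 n, Nat.cast_pow, Real.logb_pow]
      norm_num
      rw [div_self hn0]
    · intro hh n e
      by_contra hcon
      rcases Nat.eq_zero_or_pos n with h0 | h0
      · -- the empty pattern occurs
        subst h0
        obtain ⟨h', h1', -, -, h4'⟩ := Top2.top2.2 L hL f₀ hf₀
        have hee : ∀ n : ℕ, ∀ e' : Fin n → ℤˣ, ¬ OccursL L f₀ e' := by
          intro n e' hocc
          refine hcon (hm _ _ ?_ hocc)
          rintro m ⟨hm1, -⟩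
          exact ⟨hm1, fun j => j.elim0⟩
        have h6 := h4' 1 le_rfl ⟨fun _ => 1, hee 1 _⟩
        have h7 : h' = h := tendsto_nhds_unique h1' ht
        rw [h7, hh] at h6
        norm_num at h6
      · obtain ⟨h', h1', -, -, h4'⟩ := Top2.top2.2 L hL f₀ hf₀
        have h6 := h4' n h0 ⟨e, hcon⟩
        have h7 : h' = h := tendsto_nhds_unique h1' ht
        rw [h7, hh] at h6
        have h8 : (0 : ℝ) < 1 / n := by
          have : (0 : ℝ) < n := by exact_mod_cast h0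
          positivity
        linarith
  refine ⟨h, h1, h2, h3, h4, fun g hg hfin => ⟨hinv g hg hfin, ?_⟩⟩
  rw [hone g hg (hinv g hg hfin), hone f hf h1]

end Pool.Agent.K9h88.FCH
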